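import Pool.Agent.H99.HN.Fin

/-!
# MP_6a9259_mp: the mass of solutions of the Coulomb Hartree equation

Every `u ∈ H¹(ℝ³; ℂ)` that solves `(-Δ - 1/|x| + |u|² * 1/|x|) u = λ u` for some real `λ` has mass
at most the critical mass `t_c` of the Hartree functional.
-/

namespace Pool.Agent.Results.MP_6a9259_mp.AllSolutions

open Pool.Agent.H99.HM

/-- Solutions of the Hartree equation have mass at most `t_c`: the mass of a solution is at most
some `t > 0` for which the infimum `e(t)` is attained, hence at most the number `tc` such that `e(t)`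
is attained exactly for `t ≤ tc`. -/
theorem result : ∀ (u : E3 → ℂ) (lam : ℝ), IsSol u lam →
    (∃ t, mass u ≤ t ∧ 0 < t ∧ Attained t) ∧
    ∀ tc : ℝ, (∀ t, 0 < t → (Attained t ↔ t ≤ tc)) → mass u ≤ tc :=
  Pool.Agent.H99.HN.Fin.fin

end Pool.Agent.Results.MP_6a9259_mp.AllSolutions
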